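import Pool.Agent.Helper35.Phi4.Three

set_option autoImplicit false

/-! Abstract (integer) form of the pair test and the classes modulo 8. -/

namespace Pool.Agent.Helper35.Phi4

open Real

/-- abstract pair test: `A` lowest value, `F` free levels, `V` values in use -/
def AK (A : ℕ) (F : ℕ → Prop) (V : Set ℕ) : Prop :=
  (∃ x ∈ V, ∃ y ∈ V, x + y < 4 * A ∧ ¬ F (x + y) ∧
    ∀ u ∈ V, ∀ w ∈ V, u + w = x + y → (u = x ∧ w = y) ∨ (u = y ∧ w = x)) ∨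
  (¬ F (4 * A) ∧ ¬ F (3 * A) ∧ ∀ u ∈ V, ∀ w ∈ V, u + w ≠ 4 * A)

/-- classes modulo 8 -/
def C8 (A G : ℕ) : Prop := (G % 8 = A % 8 ∨ (G + A) % 8 = 0) ∨ G % 8 = 2 ∨ G % 8 = 6

theorem AK.scale {c A : ℕ} {F : ℕ → Prop} {V : Set ℕ} (hc : 0 < c) (hV : ∀ v ∈ V, c ∣ v)
    (h : AK A (fun G => F (c * G)) {v | c * v ∈ V}) : AK (c * A) F V := by
  rcases h with ⟨x, hx, y, hy, h1, h2, h3⟩ | ⟨h1, h2, h3⟩
  · left
    refine ⟨c * x, hx, c * y, hy, ?_, ?_, ?_⟩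
    · rw [← mul_add, show 4 * (c * A) = c * (4 * A) by ring]
      exact Nat.mul_lt_mul_of_pos_left h1 hc
    · rw [← mul_add]; exact h2
    · intro u hu w hw huw
      obtain ⟨u', rfl⟩ := hV u hu
      obtain ⟨w', rfl⟩ := hV w hw
      rw [← mul_add, ← mul_add] at huw
      rcases h3 u' hu w' hw (Nat.eq_of_mul_eq_mul_left hc huw) with ⟨a, b⟩ | ⟨a, b⟩
      · left; rw [a, b]; exact ⟨rfl, rfl⟩
      · right; rw [a, b]; exact ⟨rfl, rfl⟩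
  · right
    refine ⟨?_, ?_, ?_⟩
    · rw [show 4 * (c * A) = c * (4 * A) by ring]; exact h1
    · rw [show 3 * (c * A) = c * (3 * A) by ring]; exact h2
    · intro u hu w hw huw
      obtain ⟨u', rfl⟩ := hV u hu
      obtain ⟨w', rfl⟩ := hV w hw
      rw [← mul_add, show 4 * (c * A) = c * (4 * A) by ring] at huw
      exact h3 u' hu w' hw (Nat.eq_of_mul_eq_mul_left hc huw)

/-- the free levels in integers -/
def Fr (N n : ℕ) (G : ℕ) : Prop := ∃ l L : ℕ, L + 3 * l ^ 2 = N ∧ G * G = L * aa N n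

/-- the values of the chain of `n` -/
def Vs (N n : ℕ) (X : Finset ℕ) : Set ℕ :=
  {v | ∃ j ∈ X, IsSquare (aa N j * aa N n) ∧ gg N n j = v}

/-- a free level of integral size `G` gives a number `L = N - 3 l^2` with `G^2 = L * aa N n` -/
theorem free_nat {N n : ℕ} {s : ℝ} {G l : ℕ} (hG : 0 < G)
    (hs : s * √(aa N n : ℝ) = (G : ℝ)) (h : s ^ 2 = (N : ℝ) - 3 * (l : ℝ) ^ 2) :
    ∃ L : ℕ, L + 3 * l ^ 2 = N ∧ G * G = L * aa N n := by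
  have h1 := level_int hs h
  have h2 : 0 < (aa N n : ℤ) * ((N : ℤ) - 3 * (l : ℤ) ^ 2) := by
    rw [← h1]; positivity
  have h3 : 0 < (N : ℤ) - 3 * (l : ℤ) ^ 2 := by
    by_contra hc
    push Not at hc
    nlinarith [Int.natCast_nonneg (aa N n)]
  have h4 : 3 * l ^ 2 ≤ N := by
    have : (3 : ℤ) * (l : ℤ) ^ 2 ≤ N := by linarith
    exact_mod_cast this
  refine ⟨N - 3 * l ^ 2, by omega, ?_⟩
  have h5 : (((N - 3 * l ^ 2 : ℕ) : ℕ) : ℤ) = (N : ℤ) - 3 * (l : ℤ) ^ 2 := by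
    push_cast [h4]; ring
  have h6 : ((G * G : ℕ) : ℤ) = (((N - 3 * l ^ 2) * aa N n : ℕ) : ℤ) := by
    rw [Nat.cast_mul, Nat.cast_mul, h5]; linarith
  exact_mod_cast h6

theorem kill_of_ak {N n : ℕ} {X : Finset ℕ} (hn : 3 * n ^ 2 < N) (hX : ∀ j ∈ X, j ≤ n)
    (h : AK (aa N n) (Fr N n) (Vs N n X)) : Kill N n X := by
  have hj3 : ∀ j ∈ X, 3 * j ^ 2 < N := by
    intro j hj
    have : j ^ 2 ≤ n ^ 2 := Nat.pow_le_pow_left (hX j hj) 2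
    omega
  have hr := rate_pos hn
  have hrr : √(aa N n : ℝ) * √(aa N n : ℝ) = (aa N n : ℝ) :=
    Real.mul_self_sqrt (Nat.cast_nonneg _)
  have hp := aa_pos hn
  have hfree : ∀ (s : ℝ) (G : ℕ), 0 < G → s * √(aa N n : ℝ) = (G : ℝ) → ¬ Fr N n G →
      ∀ l : ℕ, s ^ 2 ≠ (N : ℝ) - 3 * (l : ℝ) ^ 2 := by
    intro s G hG hs hc l hl
    obtain ⟨L, hL, hGL⟩ := free_nat hG hs hl
    exact hc ⟨l, L, hL, hGL⟩
  rcases h with ⟨_, ⟨i0, hi0, si0, rfl⟩, _, ⟨j0, hj0, sj0, rfl⟩, h1, h2, h3⟩ | ⟨h1, h2, h3⟩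
  · left
    have hsm : (√(aa N i0 : ℝ) + √(aa N j0 : ℝ)) * √(aa N n : ℝ)
        = ((gg N n i0 + gg N n j0 : ℕ) : ℝ) := by
      rw [add_mul, gg_real si0, gg_real sj0]; push_cast; ring
    have hG : 0 < gg N n i0 + gg N n j0 := by
      have := gg_ge (hX i0 hi0) si0
      omega
    refine ⟨i0, hi0, j0, hj0, ?_, hfree _ _ hG hsm h2, ?_⟩
    · have h4 : (√(aa N i0 : ℝ) + √(aa N j0 : ℝ)) * √(aa N n : ℝ)
          < 4 * √(aa N n : ℝ) * √(aa N n : ℝ) := by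
        rw [hsm, mul_assoc, hrr]
        exact_mod_cast h1
      exact lt_of_mul_lt_mul_right h4 hr.le
    · intro i hi j hj hij
      rw [hij.symm] at hsm
      obtain ⟨hsi, hsj, hs⟩ := sum_sq hG hsm
      rcases h3 _ ⟨i, hi, hsi, rfl⟩ _ ⟨j, hj, hsj, rfl⟩ hs with ⟨a, b⟩ | ⟨a, b⟩
      · left
        exact ⟨gg_inj hn (hj3 i hi) (hj3 i0 hi0) hsi si0 a,
          gg_inj hn (hj3 j hj) (hj3 j0 hj0) hsj sj0 b⟩
      · right
        exact ⟨gg_inj hn (hj3 i hi) (hj3 j0 hj0) hsi sj0 a,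
          gg_inj hn (hj3 j hj) (hj3 i0 hi0) hsj si0 b⟩
  · right
    refine ⟨?_, ?_, ?_⟩
    · refine hfree (4 * √(aa N n : ℝ)) (4 * aa N n) (by omega) ?_ h1
      rw [mul_assoc, hrr]; push_cast; ring
    · refine hfree (3 * √(aa N n : ℝ)) (3 * aa N n) (by omega) ?_ h2
      rw [mul_assoc, hrr]; push_cast; ring
    · intro i hi j hj hij
      have h1' : (√(aa N i : ℝ) + √(aa N j : ℝ)) * √(aa N n : ℝ) = ((4 * aa N n : ℕ) : ℝ) := by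
        rw [hij]; push_cast; nlinarith
      obtain ⟨hsi, hsj, hs⟩ := sum_sq (by omega) h1'
      exact h3 _ ⟨i, hi, hsi, rfl⟩ _ ⟨j, hj, hsj, rfl⟩ hs

end Pool.Agent.Helper35.Phi4
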