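import Pool.Agent.Helper35.Phi4.Abs

set_option autoImplicit false

/-! The pair test for the classes modulo 8. -/

namespace Pool.Agent.Helper35.Phi4

theorem r6 {A x z y : ℕ} (hA : A % 8 = 3 ∨ A % 8 = 7) (cx : C8 A x) (cz : C8 A z)
    (h : x + z = A + y) (hy : y % 8 = 6) (hc : z % 8 ≠ 6) : x % 8 = 6 := by
  unfold C8 at cx cz
  rcases hA with hA | hA <;> rw [hA] at cx cz <;> omega

theorem r1 {A x z y : ℕ} (hA : A % 8 = 3 ∨ A % 8 = 7) (cx : C8 A x) (cz : C8 A z)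
    (h : x + z = A + y) (hy : (y + A) % 8 = 0) (hx6 : x % 8 ≠ 6) (hz6 : z % 8 ≠ 6)
    (hc : (z + A) % 8 ≠ 0) : (x + A) % 8 = 0 := by
  unfold C8 at cx cz
  rcases hA with hA | hA <;> rw [hA] at cx cz <;> omega

theorem r2 {A x z y : ℕ} (hA : A % 8 = 3 ∨ A % 8 = 7) (cx : C8 A x) (cz : C8 A z)
    (h : x + z = y + y) (hy : y % 8 = 2) (hx6 : x % 8 ≠ 6) (hz6 : z % 8 ≠ 6)
    (hx1 : (x + A) % 8 ≠ 0) (hz1 : (z + A) % 8 ≠ 0) : x % 8 = 2 ∧ z % 8 = 2 := by
  unfold C8 at cx cz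
  rcases hA with hA | hA <;> rw [hA] at cx cz <;> omega

theorem r4 {A x z : ℕ} (hA : A % 8 = 3 ∨ A % 8 = 7) (cx : C8 A x) (cz : C8 A z)
    (h : x + z = 4 * A) (hx6 : x % 8 ≠ 6) (hz6 : z % 8 ≠ 6)
    (hx1 : (x + A) % 8 ≠ 0) (hz1 : (z + A) % 8 ≠ 0) : x % 8 = 2 ∧ z % 8 = 2 := by
  unfold C8 at cx cz
  rcases hA with hA | hA <;> rw [hA] at cx cz <;> omega

theorem nf {A G : ℕ} (hA : A % 8 = 3 ∨ A % 8 = 7) (h : G % 4 = 0 ∨ (G + 5 * A) % 8 = 0) :
    ¬ C8 A G := by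
  unfold C8
  rcases hA with hA | hA <;> rw [hA] <;> omega

theorem three_ne {A z : ℕ} (hA : A % 8 = 3 ∨ A % 8 = 7) (cz : C8 A z) : z ≠ 3 * A := by
  unfold C8 at cz
  rcases hA with hA | hA <;> rw [hA] at cz <;> omega

/-- the abstract pair test for the classes modulo 8 -/
theorem ak8 {A : ℕ} {F : ℕ → Prop} {V : Set ℕ} (hA : A % 8 = 3 ∨ A % 8 = 7)
    (hF : ∀ G, F G → C8 A G) (hV : ∀ v ∈ V, C8 A v ∧ A ≤ v) (hAV : A ∈ V) : AK A F V := by
  classical
  by_cases e6 : ∃ y, y ∈ V ∧ y % 8 = 6 ∧ y < 3 * A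
  · left
    obtain ⟨hy, hy6, hylt⟩ := Nat.find_spec e6
    have hmin : ∀ z, z ∈ V → z % 8 = 6 → z < 3 * A → Nat.find e6 ≤ z :=
      fun z h1 h2 h3 => Nat.find_min' e6 ⟨h1, h2, h3⟩
    generalize Nat.find e6 = y at *
    refine ⟨A, hAV, y, hy, by omega, ?_, ?_⟩
    · intro hf
      exact nf hA (Or.inr (by omega)) (hF _ hf)
    · intro u hu w hw huw
      obtain ⟨cu, gu⟩ := hV u hu
      obtain ⟨cw, gw⟩ := hV w hw
      by_cases hc : w % 8 = 6
      · left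
        have := hmin w hw hc (by omega)
        clear cu cw hV hF
        omega
      · right
        have h6 := r6 hA cu cw huw hy6 hc
        have := hmin u hu h6 (by omega)
        clear cu cw hV hF
        omega
  have n6 : ∀ z, z ∈ V → z < 3 * A → z % 8 ≠ 6 := fun z h1 h2 h3 => e6 ⟨z, h1, h3, h2⟩
  by_cases e1 : ∃ y, y ∈ V ∧ (y + A) % 8 = 0 ∧ y < 3 * A
  · left
    obtain ⟨hy, hy6, hylt⟩ := Nat.find_spec e1
    have hmin : ∀ z, z ∈ V → (z + A) % 8 = 0 → z < 3 * A → Nat.find e1 ≤ z :=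
      fun z h1 h2 h3 => Nat.find_min' e1 ⟨h1, h2, h3⟩
    generalize Nat.find e1 = y at *
    refine ⟨A, hAV, y, hy, by omega, ?_, ?_⟩
    · intro hf
      exact nf hA (Or.inl (by omega)) (hF _ hf)
    · intro u hu w hw huw
      obtain ⟨cu, gu⟩ := hV u hu
      obtain ⟨cw, gw⟩ := hV w hw
      have u6 := n6 u hu (by omega)
      have w6 := n6 w hw (by omega)
      by_cases hc : (w + A) % 8 = 0
      · left
        have := hmin w hw hc (by omega)
        clear cu cw hV hF n6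
        omega
      · right
        have h6 := r1 hA cu cw huw hy6 u6 w6 hc
        have := hmin u hu h6 (by omega)
        clear cu cw hV hF n6
        omega
  have n1 : ∀ z, z ∈ V → z < 3 * A → (z + A) % 8 ≠ 0 := fun z h1 h2 h3 => e1 ⟨z, h1, h3, h2⟩
  by_cases e2 : ∃ y, y ∈ V ∧ y % 8 = 2 ∧ y < 2 * A
  · left
    obtain ⟨hy, hy6, hylt⟩ := Nat.find_spec e2
    have hmin : ∀ z, z ∈ V → z % 8 = 2 → z < 2 * A → Nat.find e2 ≤ z :=
      fun z h1 h2 h3 => Nat.find_min' e2 ⟨h1, h2, h3⟩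
    generalize Nat.find e2 = y at *
    refine ⟨y, hy, y, hy, by omega, ?_, ?_⟩
    · intro hf
      exact nf hA (Or.inl (by omega)) (hF _ hf)
    · intro u hu w hw huw
      obtain ⟨cu, gu⟩ := hV u hu
      obtain ⟨cw, gw⟩ := hV w hw
      have u6 := n6 u hu (by omega)
      have w6 := n6 w hw (by omega)
      have u1 := n1 u hu (by omega)
      have w1 := n1 w hw (by omega)
      obtain ⟨u2, w2⟩ := r2 hA cu cw huw hy6 u6 w6 u1 w1
      clear cu cw hV hF n6 n1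
      have a1 : y ≤ u := by
        by_contra hc
        exact hc (hmin u hu u2 (by omega))
      have a2 : y ≤ w := by
        by_contra hc
        exact hc (hmin w hw w2 (by omega))
      left
      omega
  have n2 : ∀ z, z ∈ V → z < 2 * A → z % 8 ≠ 2 := fun z h1 h2 h3 => e2 ⟨z, h1, h3, h2⟩
  right
  refine ⟨?_, ?_, ?_⟩
  · intro hf
    exact nf hA (Or.inl (by omega)) (hF _ hf)
  · intro hf
    exact nf hA (Or.inr (by omega)) (hF _ hf)
  · intro u hu w hw huw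
    obtain ⟨cu, gu⟩ := hV u hu
    obtain ⟨cw, gw⟩ := hV w hw
    have u3 := three_ne hA cu
    have w3 := three_ne hA cw
    have lu : u < 3 * A := by omega
    have lw : w < 3 * A := by omega
    obtain ⟨u2, w2⟩ := r4 hA cu cw huw (n6 u hu lu) (n6 w hw lw) (n1 u hu lu) (n1 w hw lw)
    have a1 : 2 * A ≤ u := by
      by_contra hc
      exact n2 u hu (by omega) u2
    have a2 : 2 * A ≤ w := by
      by_contra hc
      exact n2 w hw (by omega) w2
    clear cu cw hV hF n6 n1 n2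
    omega

end Pool.Agent.Helper35.Phi4
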