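import Mathlib

set_option autoImplicit false

/-!
# Number theory for the pair test (phi^4 breathers, exceptional periods)

`aa N j = N - 3 j^2`; the decay rate of the sine mode `j` is `√(2/N) * √(aa N j)`.
-/

namespace Pool.Agent.Helper35.Phi4

open Real

/-- `aa N j = N - 3 j^2` (used only for `3 j^2 < N`) -/
def aa (N j : ℕ) : ℕ := N - 3 * j ^ 2

theorem aa_add {N j : ℕ} (h : 3 * j ^ 2 < N) : aa N j + 3 * j ^ 2 = N := by
  unfold aa; omega

theorem aa_pos {N j : ℕ} (h : 3 * j ^ 2 < N) : 0 < aa N j := by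
  unfold aa; omega

theorem aa_anti {N i j : ℕ} (hij : i ≤ j) : aa N j ≤ aa N i := by
  unfold aa
  have : i ^ 2 ≤ j ^ 2 := Nat.pow_le_pow_left hij 2
  omega

theorem aa_inj {N i j : ℕ} (hi : 3 * i ^ 2 < N) (hj : 3 * j ^ 2 < N) (h : aa N i = aa N j) :
    i = j := by
  have h1 := aa_add hi
  have h2 := aa_add hj
  have h3 : i ^ 2 = j ^ 2 := by omega
  exact Nat.pow_left_injective (by norm_num : 2 ≠ 0) h3

/-- if the sum of two square roots of natural numbers is a positive natural number then both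
numbers are squares -/
theorem isSquare_of_add {p q G : ℕ} (hG : 0 < G) (h : √(p : ℝ) + √(q : ℝ) = G) :
    IsSquare p ∧ IsSquare q := by
  have hG' : (0 : ℝ) < G := by exact_mod_cast hG
  have hp : √(p : ℝ) * √(p : ℝ) = p := Real.mul_self_sqrt (Nat.cast_nonneg p)
  have hq : √(q : ℝ) * √(q : ℝ) = q := Real.mul_self_sqrt (Nat.cast_nonneg q)
  have e1 : √(p : ℝ) = (((G : ℚ) + ((p : ℚ) - q) / G) / 2 : ℚ) := by
    push_cast
    have h3 : √(q : ℝ) = G - √(p : ℝ) := by linarith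
    rw [h3] at hq
    field_simp
    nlinarith
  have e2 : √(q : ℝ) = (((G : ℚ) + ((q : ℚ) - p) / G) / 2 : ℚ) := by
    push_cast
    have h3 : √(p : ℝ) = G - √(q : ℝ) := by linarith
    rw [h3] at hp
    field_simp
    nlinarith
  constructor
  · by_contra hc
    have := (irrational_sqrt_natCast_iff (n := p)).2 hc
    rw [e1] at this
    exact Rat.not_irrational _ this
  · by_contra hc
    have := (irrational_sqrt_natCast_iff (n := q)).2 hc
    rw [e2] at this
    exact Rat.not_irrational _ this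

/-- the pair test at `(N, n, X)`: either some nonfree level below four times the lowest one is the
sum of exactly one pair, or the levels four and three times the lowest one are nonfree and the
level four times the lowest one is not the sum of a pair. -/
def Kill (N n : ℕ) (X : Finset ℕ) : Prop :=
  (∃ i0 ∈ X, ∃ j0 ∈ X, √(aa N i0 : ℝ) + √(aa N j0 : ℝ) < 4 * √(aa N n : ℝ) ∧
      (∀ l : ℕ, (√(aa N i0 : ℝ) + √(aa N j0 : ℝ)) ^ 2 ≠ (N : ℝ) - 3 * (l : ℝ) ^ 2) ∧
      ∀ i ∈ X, ∀ j ∈ X, √(aa N i : ℝ) + √(aa N j : ℝ) = √(aa N i0 : ℝ) + √(aa N j0 : ℝ) →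
        (i = i0 ∧ j = j0) ∨ (i = j0 ∧ j = i0)) ∨
  ((∀ l : ℕ, (4 * √(aa N n : ℝ)) ^ 2 ≠ (N : ℝ) - 3 * (l : ℝ) ^ 2) ∧
    (∀ l : ℕ, (3 * √(aa N n : ℝ)) ^ 2 ≠ (N : ℝ) - 3 * (l : ℝ) ^ 2) ∧
      ∀ i ∈ X, ∀ j ∈ X, √(aa N i : ℝ) + √(aa N j : ℝ) ≠ 4 * √(aa N n : ℝ))

end Pool.Agent.Helper35.Phi4
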