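import Pool.Agent.Helper35.Phi4.Num

set_option autoImplicit false

namespace Pool.Agent.Helper35.Phi4

open Real

/-- integer multiple of the rate: `gg N n i = √(aa N i * aa N n)` when that number is a square -/
def gg (N n i : ℕ) : ℕ := Nat.sqrt (aa N i * aa N n)

theorem gg_sq {N n i : ℕ} (h : IsSquare (aa N i * aa N n)) :
    gg N n i * gg N n i = aa N i * aa N n := by
  obtain ⟨g, hg⟩ := h
  unfold gg
  rw [hg, Nat.sqrt_eq]

theorem gg_self (N n : ℕ) : gg N n n = aa N n := by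
  unfold gg; exact Nat.sqrt_eq _

theorem sq_self (N n : ℕ) : IsSquare (aa N n * aa N n) := ⟨_, rfl⟩

theorem mul_rate (N n i : ℕ) : √(aa N i : ℝ) * √(aa N n : ℝ) = √((aa N i * aa N n : ℕ) : ℝ) := by
  rw [← Real.sqrt_mul (Nat.cast_nonneg _)]
  push_cast
  rfl

theorem gg_real {N n i : ℕ} (h : IsSquare (aa N i * aa N n)) :
    √(aa N i : ℝ) * √(aa N n : ℝ) = (gg N n i : ℝ) := by
  rw [mul_rate, ← gg_sq h]
  push_cast
  exact Real.sqrt_mul_self (Nat.cast_nonneg _)

theorem rate_pos {N n : ℕ} (h : 3 * n ^ 2 < N) : 0 < √(aa N n : ℝ) := by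
  apply Real.sqrt_pos.2
  exact_mod_cast aa_pos h

/-- all pairs with a sum commensurable to the lowest rate consist of commensurable rates -/
theorem sum_sq {N n i j G : ℕ} (hG : 0 < G)
    (h : (√(aa N i : ℝ) + √(aa N j : ℝ)) * √(aa N n : ℝ) = (G : ℝ)) :
    IsSquare (aa N i * aa N n) ∧ IsSquare (aa N j * aa N n) ∧ gg N n i + gg N n j = G := by
  rw [add_mul, mul_rate, mul_rate] at h
  obtain ⟨h1, h2⟩ := isSquare_of_add hG h
  refine ⟨h1, h2, ?_⟩
  rw [← mul_rate, ← mul_rate, gg_real h1, gg_real h2] at h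
  exact_mod_cast h

theorem gg_ge {N n i : ℕ} (hin : i ≤ n) (h : IsSquare (aa N i * aa N n)) :
    aa N n ≤ gg N n i := by
  have h1 := gg_sq h
  have h2 := aa_anti (N := N) hin
  nlinarith [Nat.mul_le_mul_right (aa N n) h2]

theorem gg_inj {N n i j : ℕ} (hn : 3 * n ^ 2 < N) (hi : 3 * i ^ 2 < N) (hj : 3 * j ^ 2 < N)
    (hsi : IsSquare (aa N i * aa N n)) (hsj : IsSquare (aa N j * aa N n))
    (h : gg N n i = gg N n j) : i = j := by
  have h1 := gg_sq hsi
  have h2 := gg_sq hsj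
  rw [h, h2] at h1
  have h3 : aa N j = aa N i := Nat.eq_of_mul_eq_mul_right (aa_pos hn) h1
  exact aa_inj hi hj h3.symm

theorem level_int {N n : ℕ} {s : ℝ} {G l : ℕ}
    (hs : s * √(aa N n : ℝ) = (G : ℝ)) (h : s ^ 2 = (N : ℝ) - 3 * (l : ℝ) ^ 2) :
    (G : ℤ) ^ 2 = (aa N n : ℤ) * ((N : ℤ) - 3 * (l : ℤ) ^ 2) := by
  have h1 : √(aa N n : ℝ) * √(aa N n : ℝ) = (aa N n : ℝ) :=
    Real.mul_self_sqrt (Nat.cast_nonneg _)
  have h2 : (G : ℝ) ^ 2 = (aa N n : ℝ) * ((N : ℝ) - 3 * (l : ℝ) ^ 2) := by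
    rw [← hs, mul_pow, pow_two (√(aa N n : ℝ)), h1, h]; ring
  exact_mod_cast h2

/-- Theorem 1: `3 ∤ N`. -/
theorem kill_three {N n m : ℕ} {X : Finset ℕ} (hmn : m < n) (hN : N + m ^ 2 = 4 * n ^ 2)
    (h3 : ¬ 3 ∣ N) (hnX : n ∈ X) (hX : ∀ j ∈ X, j ≤ n) : Kill N n X := by
  have hm2 : m ^ 2 < n ^ 2 := Nat.pow_lt_pow_left hmn (by norm_num)
  have hn : 3 * n ^ 2 < N := by omega
  have hj3 : ∀ j ∈ X, 3 * j ^ 2 < N := by
    intro j hj
    have : j ^ 2 ≤ n ^ 2 := Nat.pow_le_pow_left (hX j hj) 2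
    omega
  have haN : ∀ j ∈ X, aa N j % 3 = N % 3 := by
    intro j hj
    have := aa_add (hj3 j hj)
    omega
  have hN3 : N % 3 = 1 ∨ N % 3 = 2 := by omega
  have hgm : ∀ j ∈ X, IsSquare (aa N j * aa N n) → gg N n j % 3 = 1 ∨ gg N n j % 3 = 2 := by
    intro j hj hs
    have h1 := gg_sq hs
    have h2 : (gg N n j * gg N n j) % 3 = (N % 3 * (N % 3)) % 3 := by
      rw [h1, Nat.mul_mod, haN j hj, haN n hnX]
    have h4 : (gg N n j * gg N n j) % 3 = (gg N n j % 3 * (gg N n j % 3)) % 3 := Nat.mul_mod _ _ _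
    rcases (by omega : gg N n j % 3 = 0 ∨ gg N n j % 3 = 1 ∨ gg N n j % 3 = 2) with h | h | h
    · rw [h] at h4
      rcases hN3 with h5 | h5 <;> rw [h5] at h2 <;> omega
    · exact Or.inl h
    · exact Or.inr h
  have han := haN n hnX
  classical
  set M : Finset ℕ := X.filter (fun j => IsSquare (aa N j * aa N n) ∧
    gg N n j % 3 ≠ aa N n % 3 ∧ gg N n j < 3 * aa N n) with hM
  by_cases hne : M.Nonempty
  · left
    obtain ⟨y, hy, hmin⟩ := Finset.exists_min_image M (gg N n) hne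
    obtain ⟨hyX, hys, hyc, hylt⟩ := Finset.mem_filter.1 hy
    have hr := rate_pos hn
    have hrr : √(aa N n : ℝ) * √(aa N n : ℝ) = (aa N n : ℝ) :=
      Real.mul_self_sqrt (Nat.cast_nonneg _)
    have hsum : (√(aa N n : ℝ) + √(aa N y : ℝ)) * √(aa N n : ℝ)
        = ((aa N n + gg N n y : ℕ) : ℝ) := by
      rw [add_mul, hrr, gg_real hys]; push_cast; ring
    have hdiv : (aa N n + gg N n y) % 3 = 0 := by
      have := hgm y hyX hys
      omega
    refine ⟨n, hnX, y, hyX, ?_, ?_, ?_⟩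
    · have h1 : √(aa N y : ℝ) * √(aa N n : ℝ) < 3 * √(aa N n : ℝ) * √(aa N n : ℝ) := by
        rw [gg_real hys, mul_assoc, hrr]
        exact_mod_cast hylt
      have := lt_of_mul_lt_mul_right h1 hr.le
      linarith
    · intro l hl
      have h1 := level_int hsum hl
      obtain ⟨c, hc⟩ := Nat.dvd_of_mod_eq_zero hdiv
      have hc' : ((aa N n + gg N n y : ℕ) : ℤ) = 3 * (c : ℤ) := by exact_mod_cast hc
      rw [hc'] at h1
      have h2 : (3 : ℤ) ∣ (aa N n : ℤ) * (N : ℤ) := by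
        refine ⟨3 * (c : ℤ) ^ 2 + (aa N n : ℤ) * (l : ℤ) ^ 2, ?_⟩
        linear_combination (-1) * h1
      have h3' : (3 : ℤ) ∣ (aa N n : ℤ) ∨ (3 : ℤ) ∣ (N : ℤ) :=
        Int.Prime.dvd_mul' (by norm_num) h2
      rcases h3' with h | h
      · have : 3 ∣ aa N n := by exact_mod_cast h
        omega
      · have : 3 ∣ N := by exact_mod_cast h
        exact h3 this
    · -- uniqueness of the pair
      have key : ∀ i ∈ X, ∀ j ∈ X, IsSquare (aa N i * aa N n) → IsSquare (aa N j * aa N n) →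
          gg N n i + gg N n j = aa N n + gg N n y → gg N n j % 3 ≠ aa N n % 3 →
          i = n ∧ j = y := by
        intro i hi j hj hsi hsj hs hc
        have h1 := gg_ge (hX i hi) hsi
        have h2 : j ∈ M := by
          refine Finset.mem_filter.2 ⟨hj, hsj, hc, by omega⟩
        have h4 := hmin j h2
        have h5 : gg N n j = gg N n y := by omega
        have h6 : gg N n i = gg N n n := by rw [gg_self]; omega
        exact ⟨gg_inj hn (hj3 i hi) hn hsi (sq_self N n) h6,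
          gg_inj hn (hj3 j hj) (hj3 y hyX) hsj hys h5⟩
      intro i hi j hj hij
      have hG : 0 < aa N n + gg N n y := by have := aa_pos hn; omega
      have h1 : (√(aa N i : ℝ) + √(aa N j : ℝ)) * √(aa N n : ℝ)
          = ((aa N n + gg N n y : ℕ) : ℝ) := by rw [hij, hsum]
      obtain ⟨hsi, hsj, hs⟩ := sum_sq hG h1
      have hi3 := hgm i hi hsi
      have hj3' := hgm j hj hsj
      by_cases hc : gg N n j % 3 = aa N n % 3
      · right
        have hc2 : gg N n i % 3 ≠ aa N n % 3 := by omega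
        have := key j hj i hi hsj hsi (by omega) hc2
        exact ⟨this.2, this.1⟩
      · left
        exact key i hi j hj hsi hsj hs hc
  · right
    have hMe : ∀ j ∈ X, IsSquare (aa N j * aa N n) → gg N n j < 3 * aa N n →
        gg N n j % 3 = aa N n % 3 := by
      intro j hj hs hlt
      by_contra hc
      exact hne ⟨j, Finset.mem_filter.2 ⟨hj, hs, hc, hlt⟩⟩
    have haa := aa_add hn
    have hrr : √(aa N n : ℝ) ^ 2 = (aa N n : ℝ) := Real.sq_sqrt (Nat.cast_nonneg _)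
    refine ⟨?_, ?_, ?_⟩
    · intro l hl
      have h1 : (16 : ℝ) * (aa N n : ℝ) + 3 * (l : ℝ) ^ 2 = (N : ℝ) := by
        rw [mul_pow, hrr] at hl; linarith
      have h2 : 16 * aa N n + 3 * l ^ 2 = N := by exact_mod_cast h1
      have h4 : l ^ 2 + 4 * n ^ 2 = 5 * m ^ 2 := by omega
      have a1 : l ^ 2 % 3 = 0 ∨ l ^ 2 % 3 = 1 := by
        rcases (by omega : l % 3 = 0 ∨ l % 3 = 1 ∨ l % 3 = 2) with h | h | h <;>
          simp [Nat.pow_mod, h]
      have a2 : n ^ 2 % 3 = 0 ∨ n ^ 2 % 3 = 1 := by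
        rcases (by omega : n % 3 = 0 ∨ n % 3 = 1 ∨ n % 3 = 2) with h | h | h <;>
          simp [Nat.pow_mod, h]
      have a3 : m ^ 2 % 3 = 0 ∨ m ^ 2 % 3 = 1 := by
        rcases (by omega : m % 3 = 0 ∨ m % 3 = 1 ∨ m % 3 = 2) with h | h | h <;>
          simp [Nat.pow_mod, h]
      omega
    · intro l hl
      have h1 : (9 : ℝ) * (aa N n : ℝ) + 3 * (l : ℝ) ^ 2 = (N : ℝ) := by
        rw [mul_pow, hrr] at hl; linarith
      have h2 : 9 * aa N n + 3 * l ^ 2 = N := by exact_mod_cast h1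
      omega
    · intro i hi j hj hij
      have h1 : (√(aa N i : ℝ) + √(aa N j : ℝ)) * √(aa N n : ℝ) = ((4 * aa N n : ℕ) : ℝ) := by
        rw [hij]; push_cast; nlinarith
      have hp := aa_pos hn
      obtain ⟨hsi, hsj, hs⟩ := sum_sq (by omega) h1
      have hgi := gg_ge (hX i hi) hsi
      have hgj := gg_ge (hX j hj) hsj
      have hi3 := hgm i hi hsi
      have hj3' := hgm j hj hsj
      have c1 := hMe i hi hsi (by omega)
      have c2 := hMe j hj hsj (by omega)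
      omega

end Pool.Agent.Helper35.Phi4
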