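import Pool.Agent.Helper88.PhiQ
import Pool.Agent.Helper78.Phi4.Pc
import Pool.Agent.Helper35.Phi4.Three

/-! Row I: arithmetic for `3 ∤ N`, `N = 4 n ^ 2 - m ^ 2`. -/

set_option autoImplicit false

namespace Phi4

open Real Filter MeasureTheory intervalIntegral Set

namespace h35

open Pool.Agent.Helper35.Phi4

theorem om_pos {T : ℝ} (hT : 0 < T) {j : ℕ} (hj : 1 ≤ j) : 0 < om T j := by
  unfold om
  have : (0:ℝ) < j := by exact_mod_cast hj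
  have := Real.pi_pos
  positivity

/-- `om` in terms of `N` -/
theorem om_sq {T N : ℝ} (hT : 0 < T) (hN : 0 < N) (hTT : T ^ 2 = 2 * π ^ 2 / 3 * N) (j : ℕ) :
    om T j ^ 2 = 6 * (j:ℝ) ^ 2 / N := by
  unfold om
  have hpi := Real.pi_pos
  rw [mul_pow, div_pow, hTT]
  field_simp
  ring

theorem two_sub_om {T N : ℝ} (hT : 0 < T) (hN : 0 < N) (hTT : T ^ 2 = 2 * π ^ 2 / 3 * N) (j : ℕ) :
    2 - om T j ^ 2 = 2 / N * (N - 3 * (j:ℝ) ^ 2) := by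
  rw [om_sq hT hN hTT]
  field_simp
  ring

/-- the rate of a low mode -/
theorem lm_eq {T : ℝ} {N : ℕ} (hT : 0 < T) (hN : 0 < N) (hTT : T ^ 2 = 2 * π ^ 2 / 3 * (N:ℝ))
    {j : ℕ} (hj : 3 * j ^ 2 < N) : lm T j = √(2 / (N:ℝ)) * √(aa N j : ℝ) := by
  have hN' : (0:ℝ) < N := by exact_mod_cast hN
  unfold lm
  rw [two_sub_om hT hN' hTT, Real.sqrt_mul (by positivity)]
  congr 2
  have := aa_add hj
  have h2 : ((aa N j + 3 * j ^ 2 : ℕ) : ℝ) = N := by rw [this]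
  push_cast at h2
  linarith

/-- free levels: `(√(2/N) s)^2 = 2 - om^2` iff `s^2 = N - 3 l^2` -/
theorem free_iff {T : ℝ} {N : ℕ} (hT : 0 < T) (hN : 0 < N) (hTT : T ^ 2 = 2 * π ^ 2 / 3 * (N:ℝ))
    (s : ℝ) (l : ℕ) :
    (√(2 / (N:ℝ)) * s) ^ 2 = 2 - om T l ^ 2 ↔ s ^ 2 = (N:ℝ) - 3 * (l:ℝ) ^ 2 := by
  have hN' : (0:ℝ) < N := by exact_mod_cast hN
  rw [two_sub_om hT hN' hTT, mul_pow, Real.sq_sqrt (by positivity)]
  constructor
  · intro h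
    exact mul_left_cancel₀ (by positivity) h
  · intro h
    rw [h]

theorem low_iff {T : ℝ} {N : ℕ} (hT : 0 < T) (hN : 0 < N) (hTT : T ^ 2 = 2 * π ^ 2 / 3 * (N:ℝ))
    (j : ℕ) : om T j ^ 2 < 2 ↔ 3 * j ^ 2 < N := by
  have hN' : (0:ℝ) < N := by exact_mod_cast hN
  rw [om_sq hT hN' hTT, div_lt_iff₀ hN']
  constructor
  · intro h
    have : (3:ℝ) * (j:ℝ) ^ 2 < N := by linarith
    exact_mod_cast this
  · intro h
    have : (3:ℝ) * (j:ℝ) ^ 2 < N := by exact_mod_cast h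
    linarith

theorem pc_symm (T κ : ℝ) (i j : ℕ) : pc T κ i j = pc T κ j i := by
  unfold pc
  rw [show (om T i - om T j) ^ 2 = (om T j - om T i) ^ 2 by ring,
    show (om T i + om T j) ^ 2 = (om T j + om T i) ^ 2 by ring]

end h35

theorem pc_ne_zero {T κ : ℝ} (hT : 0 < T) (hres : ∀ a : ℕ, κ ^ 2 ≠ 2 - om T a ^ 2) {i j : ℕ}
    (hi : 1 ≤ i) (hj : 1 ≤ j) : pc T κ i j ≠ 0 := by
  have h1 := h78.ne_sub hres i j
  have h2 := h78.ne_add hres i j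
  have hi' := h35.om_pos hT hi
  have hj' := h35.om_pos hT hj
  unfold pc
  rw [div_sub_div _ _ h1 h2]
  have e : 1 * (κ ^ 2 - 2 + (om T i + om T j) ^ 2) - (κ ^ 2 - 2 + (om T i - om T j) ^ 2) * 1
      = 4 * (om T i * om T j) := by ring
  rw [e]
  have : (0:ℝ) < om T i * om T j := mul_pos hi' hj'
  have h3 : (κ ^ 2 - 2 + (om T i - om T j) ^ 2) * (κ ^ 2 - 2 + (om T i + om T j) ^ 2) ≠ 0 :=
    mul_ne_zero h1 h2
  positivity

namespace h35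

open Pool.Agent.Helper35.Phi4

/-- the pair test in terms of the pair condition -/
theorem no_pairs_of_kill {T : ℝ} {N n : ℕ} (hT : 0 < T) (hN : 3 * n ^ 2 < N)
    (hTT : T ^ 2 = 2 * π ^ 2 / 3 * (N:ℝ)) (B : ℕ → ℝ)
    (hB : ∀ j, B j ≠ 0 → 1 ≤ j ∧ om T j ^ 2 < 2)
    (hpair : ∀ κ : ℝ, κ < 4 * lm T n → (∀ a : ℕ, κ ^ 2 ≠ 2 - om T a ^ 2) →
      ∑ p ∈ (Finset.range (JJ T + 1) ×ˢ Finset.range (JJ T + 1)).filter
        (fun p => lm T p.1 + lm T p.2 = κ), B p.1 * B p.2 * pc T κ p.1 p.2 = 0)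
    (X : Finset ℕ) (hX : ∀ j, j ∈ X ↔ B j ≠ 0) (hK : Kill N n X) :
    ((∀ a : ℕ, (4 * lm T n) ^ 2 ≠ 2 - om T a ^ 2) ∧
      (∀ a : ℕ, (3 * lm T n) ^ 2 ≠ 2 - om T a ^ 2)) ∧
    ∀ i j, B i ≠ 0 → B j ≠ 0 → lm T i + lm T j ≠ 4 * lm T n := by
  have hN0 : 0 < N := by omega
  have hN' : (0:ℝ) < N := by exact_mod_cast hN0
  have hs : (0:ℝ) < √(2 / (N:ℝ)) := Real.sqrt_pos.2 (by positivity)
  have hlow : ∀ j, j ∈ X → 3 * j ^ 2 < N := fun j hj =>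
    (low_iff hT hN0 hTT j).1 (hB j ((hX j).1 hj)).2
  have hlm : ∀ j, j ∈ X → lm T j = √(2 / (N:ℝ)) * √(aa N j : ℝ) := fun j hj =>
    lm_eq hT hN0 hTT (hlow j hj)
  have hlmn : lm T n = √(2 / (N:ℝ)) * √(aa N n : ℝ) := lm_eq hT hN0 hTT hN
  rcases hK with ⟨i0, hi0, j0, hj0, hlt, hfree, huniq⟩ | ⟨h4, h3, hno⟩
  · exfalso
    set κ : ℝ := lm T i0 + lm T j0 with hκ
    have hκ' : κ = √(2 / (N:ℝ)) * (√(aa N i0 : ℝ) + √(aa N j0 : ℝ)) := by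
      rw [hκ, hlm i0 hi0, hlm j0 hj0]; ring
    have c1 : κ < 4 * lm T n := by
      rw [hκ', hlmn]
      nlinarith [mul_lt_mul_of_pos_left hlt hs]
    have c2 : ∀ a : ℕ, κ ^ 2 ≠ 2 - om T a ^ 2 := by
      intro a ha
      rw [hκ', free_iff hT hN0 hTT] at ha
      exact hfree a ha
    have h := hpair κ c1 c2
    have hB1 := hB i0 ((hX i0).1 hi0)
    have hB2 := hB j0 ((hX j0).1 hj0)
    have m1 : i0 ∈ Finset.range (JJ T + 1) :=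
      Finset.mem_range.2 (Nat.lt_succ_of_le (le_JJ hT hB1.2.le))
    have m2 : j0 ∈ Finset.range (JJ T + 1) :=
      Finset.mem_range.2 (Nat.lt_succ_of_le (le_JJ hT hB2.2.le))
    have hne : B i0 * B j0 * pc T κ i0 j0 ≠ 0 :=
      mul_ne_zero (mul_ne_zero ((hX i0).1 hi0) ((hX j0).1 hj0)) (pc_ne_zero hT c2 hB1.1 hB2.1)
    have hzero : ∀ p ∈ (Finset.range (JJ T + 1) ×ˢ Finset.range (JJ T + 1)).filter
        (fun p => lm T p.1 + lm T p.2 = κ), p ∉ ({(i0, j0), (j0, i0)} : Finset (ℕ × ℕ)) →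
        B p.1 * B p.2 * pc T κ p.1 p.2 = 0 := by
      intro p hp hp2
      by_contra hc
      have b1 : B p.1 ≠ 0 := by
        intro h0; rw [h0] at hc; simp at hc
      have b2 : B p.2 ≠ 0 := by
        intro h0; rw [h0] at hc; simp at hc
      have q1 := (hX p.1).2 b1
      have q2 := (hX p.2).2 b2
      have hsum := (Finset.mem_filter.1 hp).2
      rw [hlm _ q1, hlm _ q2, hκ', ← mul_add] at hsum
      have := mul_left_cancel₀ hs.ne' hsum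
      apply hp2
      rcases huniq _ q1 _ q2 this with ⟨a, b⟩ | ⟨a, b⟩
      · simp [Prod.ext_iff, a, b]
      · simp [Prod.ext_iff, a, b]
    have hsub : ({(i0, j0), (j0, i0)} : Finset (ℕ × ℕ)) ⊆
        (Finset.range (JJ T + 1) ×ˢ Finset.range (JJ T + 1)).filter
        (fun p => lm T p.1 + lm T p.2 = κ) := by
      intro p hp
      rcases Finset.mem_insert.1 hp with hp | hp
      · rw [hp]
        exact Finset.mem_filter.2 ⟨Finset.mem_product.2 ⟨m1, m2⟩, rfl⟩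
      · rw [Finset.mem_singleton.1 hp]
        exact Finset.mem_filter.2 ⟨Finset.mem_product.2 ⟨m2, m1⟩, add_comm _ _⟩
    rw [← Finset.sum_subset hsub (fun p hp hp2 => hzero p hp hp2)] at h
    by_cases hij : i0 = j0
    · subst hij
      simp at h
      rcases h with h | h
      · exact (hX i0).1 hi0 h
      · exact pc_ne_zero hT c2 hB1.1 hB2.1 h
    · rw [Finset.sum_pair (by
        intro he
        exact hij (Prod.ext_iff.1 he).1)] at h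
      simp only at h
      rw [pc_symm T κ j0 i0] at h
      apply hne
      linarith
  · refine ⟨⟨?_, ?_⟩, ?_⟩
    · intro a ha
      rw [hlmn, show 4 * (√(2 / (N:ℝ)) * √(aa N n : ℝ)) = √(2 / (N:ℝ)) * (4 * √(aa N n : ℝ)) by
        ring, free_iff hT hN0 hTT] at ha
      exact h4 a ha
    · intro a ha
      rw [hlmn, show 3 * (√(2 / (N:ℝ)) * √(aa N n : ℝ)) = √(2 / (N:ℝ)) * (3 * √(aa N n : ℝ)) by
        ring, free_iff hT hN0 hTT] at ha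
      exact h3 a ha
    · intro i j hi hj hij
      have q1 := (hX i).2 hi
      have q2 := (hX j).2 hj
      rw [hlm _ q1, hlm _ q2, hlmn, ← mul_add,
        show 4 * (√(2 / (N:ℝ)) * √(aa N n : ℝ)) = √(2 / (N:ℝ)) * (4 * √(aa N n : ℝ)) by
        ring] at hij
      exact hno i q1 j q2 (mul_left_cancel₀ hs.ne' hij)

theorem cast_N {n m : ℕ} (hmn : m < n) :
    (((4 * n ^ 2 - m ^ 2 : ℕ)) : ℝ) = 4 * (n:ℝ) ^ 2 - (m:ℝ) ^ 2 := by
  have : m ^ 2 ≤ 4 * n ^ 2 := by nlinarith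
  rw [Nat.cast_sub this]
  push_cast
  ring

theorem add_N {n m : ℕ} (hmn : m < n) : (4 * n ^ 2 - m ^ 2) + m ^ 2 = 4 * n ^ 2 := by
  have : m ^ 2 ≤ 4 * n ^ 2 := by nlinarith
  omega

theorem not_dvd_N {n m : ℕ} (hmn : m < n) (h3 : ¬ (3:ℤ) ∣ 4 * (n:ℤ) ^ 2 - (m:ℤ) ^ 2) :
    ¬ 3 ∣ (4 * n ^ 2 - m ^ 2 : ℕ) := by
  intro h
  apply h3
  have h1 : ((4 * n ^ 2 - m ^ 2 : ℕ) : ℤ) = 4 * (n:ℤ) ^ 2 - (m:ℤ) ^ 2 := by
    have : m ^ 2 ≤ 4 * n ^ 2 := by nlinarith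
    rw [Nat.cast_sub this]; push_cast; ring
  rw [← h1]
  exact_mod_cast h

/-- the support of `B` lies below `n` -/
theorem supp_le {T : ℝ} {N n : ℕ} (hT : 0 < T) (hn : 3 * n ^ 2 < N)
    (hTT : T ^ 2 = 2 * π ^ 2 / 3 * (N:ℝ)) {j : ℕ} (h1 : om T j ^ 2 < 2)
    (h2 : lm T n ≤ lm T j) : j ≤ n := by
  have hN0 : 0 < N := by omega
  have hN' : (0:ℝ) < N := by exact_mod_cast hN0
  have h3 := (low_iff hT hN0 hTT j).1 h1
  by_contra hc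
  have h4 : (n:ℝ) < j := by exact_mod_cast not_le.1 hc
  have h5 : lm T j < lm T n := by
    unfold lm
    apply Real.sqrt_lt_sqrt
    · linarith
    · rw [om_sq hT hN' hTT, om_sq hT hN' hTT]
      have : 6 * (n:ℝ) ^ 2 / N < 6 * (j:ℝ) ^ 2 / N := by
        apply div_lt_div_of_pos_right _ hN'
        nlinarith
      linarith
  linarith

end h35

theorem num3 {T : ℝ} (hT : 0 < T) {n m : ℕ} (hm : 1 ≤ m) (hmn : m < n)
    (hTT : T ^ 2 = 2 * π ^ 2 / 3 * (4 * (n:ℝ) ^ 2 - (m:ℝ) ^ 2))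
    (h3 : ¬ (3:ℤ) ∣ 4 * (n:ℤ) ^ 2 - (m:ℤ) ^ 2) :
    4 * (n:ℝ) ≠ 5 * m ∧ (∀ a : ℕ, (3 * lm T n) ^ 2 ≠ 2 - om T a ^ 2) ∧
      (∀ a : ℕ, (4 * lm T n) ^ 2 ≠ 2 - om T a ^ 2) := by
  have hmn2 : m ^ 2 < n ^ 2 := Nat.pow_lt_pow_left hmn (by norm_num)
  have hN := h35.add_N hmn
  have h3' := h35.not_dvd_N hmn h3
  rw [← h35.cast_N hmn] at hTT
  generalize hNN : (4 * n ^ 2 - m ^ 2 : ℕ) = N at *
  have hn : 3 * n ^ 2 < N := by omega
  have hN0 : 0 < N := by omega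
  have hlmn := h35.lm_eq hT hN0 hTT hn
  have haa := Pool.Agent.Helper35.Phi4.aa_add hn
  have hrr : √(Pool.Agent.Helper35.Phi4.aa N n : ℝ) ^ 2 = (Pool.Agent.Helper35.Phi4.aa N n : ℝ) :=
    Real.sq_sqrt (Nat.cast_nonneg _)
  refine ⟨?_, ?_, ?_⟩
  · intro h
    have h1 : 4 * n = 5 * m := by exact_mod_cast h
    apply h3'
    obtain ⟨k, rfl⟩ : 4 ∣ m := by omega
    have : n = 5 * k := by omega
    subst this
    refine ⟨28 * k ^ 2, ?_⟩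
    nlinarith
  · intro a ha
    rw [hlmn, show 3 * (√(2 / (N:ℝ)) * √(Pool.Agent.Helper35.Phi4.aa N n : ℝ)) =
      √(2 / (N:ℝ)) * (3 * √(Pool.Agent.Helper35.Phi4.aa N n : ℝ)) by ring,
      h35.free_iff hT hN0 hTT] at ha
    have h1 : (9 : ℝ) * (Pool.Agent.Helper35.Phi4.aa N n : ℝ) + 3 * (a : ℝ) ^ 2 = (N : ℝ) := by
      rw [mul_pow, hrr] at ha; linarith
    have h2 : 9 * Pool.Agent.Helper35.Phi4.aa N n + 3 * a ^ 2 = N := by exact_mod_cast h1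
    omega
  · intro a ha
    rw [hlmn, show 4 * (√(2 / (N:ℝ)) * √(Pool.Agent.Helper35.Phi4.aa N n : ℝ)) =
      √(2 / (N:ℝ)) * (4 * √(Pool.Agent.Helper35.Phi4.aa N n : ℝ)) by ring,
      h35.free_iff hT hN0 hTT] at ha
    have h1 : (16 : ℝ) * (Pool.Agent.Helper35.Phi4.aa N n : ℝ) + 3 * (a : ℝ) ^ 2 = (N : ℝ) := by
      rw [mul_pow, hrr] at ha; linarith
    have h2 : 16 * Pool.Agent.Helper35.Phi4.aa N n + 3 * a ^ 2 = N := by exact_mod_cast h1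
    have h4 : a ^ 2 + 4 * n ^ 2 = 5 * m ^ 2 := by omega
    have a1 : a ^ 2 % 3 = 0 ∨ a ^ 2 % 3 = 1 := by
      rcases (by omega : a % 3 = 0 ∨ a % 3 = 1 ∨ a % 3 = 2) with h | h | h <;>
        simp [Nat.pow_mod, h]
    have a2 : n ^ 2 % 3 = 0 ∨ n ^ 2 % 3 = 1 := by
      rcases (by omega : n % 3 = 0 ∨ n % 3 = 1 ∨ n % 3 = 2) with h | h | h <;>
        simp [Nat.pow_mod, h]
    have a3 : m ^ 2 % 3 = 0 ∨ m ^ 2 % 3 = 1 := by
      rcases (by omega : m % 3 = 0 ∨ m % 3 = 1 ∨ m % 3 = 2) with h | h | h <;>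
        simp [Nat.pow_mod, h]
    omega

theorem no_pairs3 {T : ℝ} (hT : 0 < T) {n m : ℕ} (hm : 1 ≤ m) (hmn : m < n)
    (hTT : T ^ 2 = 2 * π ^ 2 / 3 * (4 * (n:ℝ) ^ 2 - (m:ℝ) ^ 2))
    (h3 : ¬ (3:ℤ) ∣ 4 * (n:ℤ) ^ 2 - (m:ℤ) ^ 2) (B : ℕ → ℝ) (hBn : B n ≠ 0)
    (hB : ∀ j, B j ≠ 0 → 1 ≤ j ∧ om T j ^ 2 < 2 ∧ lm T n ≤ lm T j ∧ lm T j < 3 * lm T n)
    (hpair : ∀ κ : ℝ, κ < 4 * lm T n → (∀ a : ℕ, κ ^ 2 ≠ 2 - om T a ^ 2) →
      ∑ p ∈ (Finset.range (JJ T + 1) ×ˢ Finset.range (JJ T + 1)).filter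
        (fun p => lm T p.1 + lm T p.2 = κ), B p.1 * B p.2 * pc T κ p.1 p.2 = 0) :
    ∀ i j, B i ≠ 0 → B j ≠ 0 → lm T i + lm T j ≠ 4 * lm T n := by
  classical
  have hmn2 : m ^ 2 < n ^ 2 := Nat.pow_lt_pow_left hmn (by norm_num)
  have hN := h35.add_N hmn
  have h3' := h35.not_dvd_N hmn h3
  rw [← h35.cast_N hmn] at hTT
  generalize hNN : (4 * n ^ 2 - m ^ 2 : ℕ) = N at *
  have hn : 3 * n ^ 2 < N := by omega
  have hN0 : 0 < N := by omega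
  set X : Finset ℕ := (Finset.range (JJ T + 1)).filter (fun j => B j ≠ 0) with hXdef
  have hX : ∀ j, j ∈ X ↔ B j ≠ 0 := by
    intro j
    rw [hXdef, Finset.mem_filter]
    constructor
    · exact fun h => h.2
    · intro h
      exact ⟨Finset.mem_range.2 (Nat.lt_succ_of_le (le_JJ hT (hB j h).2.1.le)), h⟩
  have hK := Pool.Agent.Helper35.Phi4.kill_three (X := X) hmn hN h3' ((hX n).2 hBn)
    (fun j hj => h35.supp_le hT hn hTT (hB j ((hX j).1 hj)).2.1 (hB j ((hX j).1 hj)).2.2.1)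
  exact (h35.no_pairs_of_kill hT hn hTT B (fun j hj => ⟨(hB j hj).1, (hB j hj).2.1⟩) hpair X hX
    hK).2

end Phi4
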