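import Pool.Agent.Helper35.Phi4.Eight

set_option autoImplicit false

/-! The pair test for `N = 4^a (8 b + 7)`, `(n, m) = 2^a (n', m')`. -/

namespace Pool.Agent.Helper35.Phi4

open Real

theorem sqodd (l : ℕ) (h : l % 2 = 1) : ∃ t, l ^ 2 = 8 * t + 1 := by
  obtain ⟨u, rfl⟩ : ∃ u, l = 2 * u + 1 := ⟨l / 2, by omega⟩
  have hu2 : (u * u + u) % 2 = 0 := by
    rcases Nat.mod_two_eq_zero_or_one u with hu | hu
    · obtain ⟨w, rfl⟩ : ∃ w, u = 2 * w := ⟨u / 2, by omega⟩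
      rw [show 2 * w * (2 * w) + 2 * w = 2 * (2 * (w * w) + w) by ring]; omega
    · obtain ⟨w, rfl⟩ : ∃ w, u = 2 * w + 1 := ⟨u / 2, by omega⟩
      rw [show (2 * w + 1) * (2 * w + 1) + (2 * w + 1) = 2 * (2 * (w * w) + 3 * w + 1) by ring]
      omega
  refine ⟨(u * u + u) / 2, ?_⟩
  have e : (2 * u + 1) ^ 2 = 4 * (u * u + u) + 1 := by ring
  rw [e]
  omega

theorem sqeven (l : ℕ) (h : l % 2 = 0) : ∃ t, l ^ 2 = 16 * t ∨ l ^ 2 = 16 * t + 4 := by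
  obtain ⟨u, rfl⟩ : ∃ u, l = 2 * u := ⟨l / 2, by omega⟩
  have e : (2 * u) ^ 2 = 4 * u ^ 2 := by ring
  rcases Nat.mod_two_eq_zero_or_one u with hu | hu
  · obtain ⟨w, rfl⟩ : ∃ w, u = 2 * w := ⟨u / 2, by omega⟩
    exact ⟨w * w, Or.inl (by ring)⟩
  · obtain ⟨t, ht⟩ := sqodd u hu
    refine ⟨2 * t, Or.inr ?_⟩
    rw [e, ht]; ring

theorem sqmod8 (G : ℕ) : G * G % 8 = 0 ∨ G * G % 8 = 1 ∨ G * G % 8 = 4 := by
  rw [← pow_two]
  rcases Nat.mod_two_eq_zero_or_one G with h | h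
  · obtain ⟨t, ht | ht⟩ := sqeven G h <;> rw [ht] <;> omega
  · obtain ⟨t, ht⟩ := sqodd G h
    rw [ht]; omega

theorem mul8 {G L A : ℕ} (h : G * G = L * A) :
    ((L % 8) * (A % 8)) % 8 = 0 ∨ ((L % 8) * (A % 8)) % 8 = 1 ∨ ((L % 8) * (A % 8)) % 8 = 4 := by
  rw [← Nat.mul_mod, ← h]; exact sqmod8 G

theorem even_of_sq {G t : ℕ} (h : G * G = 4 * t) : ∃ G', G = 2 * G' ∧ G' * G' = t := by
  have hGe : G % 2 = 0 := by
    rcases Nat.mod_two_eq_zero_or_one G with h1 | h1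
    · exact h1
    · exfalso
      obtain ⟨s, hs⟩ := sqodd G h1
      rw [pow_two] at hs
      omega
  obtain ⟨G', rfl⟩ : ∃ G', G = 2 * G' := ⟨G / 2, by omega⟩
  refine ⟨G', rfl, ?_⟩
  have : 4 * (G' * G') = 4 * t := by rw [← h]; ring
  omega

/-- one 2-adic step -/
theorem step {l L N A G : ℕ} (hA : A % 8 = 3 ∨ A % 8 = 7) (h1 : L + 3 * l ^ 2 = 4 * N)
    (h2 : G * G = L * A) :
    ∃ l' L' G' : ℕ, l = 2 * l' ∧ L = 4 * L' ∧ G = 2 * G' ∧ L' + 3 * l' ^ 2 = N ∧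
      G' * G' = L' * A := by
  rcases Nat.mod_two_eq_zero_or_one l with hl | hl
  · obtain ⟨l', rfl⟩ : ∃ l', l = 2 * l' := ⟨l / 2, by omega⟩
    have e : (2 * l') ^ 2 = 4 * l' ^ 2 := by ring
    rw [e] at h1
    obtain ⟨L', rfl⟩ : ∃ L', L = 4 * L' := ⟨L / 4, by omega⟩
    rw [show 4 * L' * A = 4 * (L' * A) by ring] at h2
    obtain ⟨G', rfl, hG'⟩ := even_of_sq h2
    exact ⟨l', L', G', rfl, rfl, rfl, by omega, hG'⟩
  · exfalso
    obtain ⟨t, ht⟩ := sqodd l hl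
    rw [ht] at h1
    have hL : L % 8 = 1 ∨ L % 8 = 5 := by omega
    have h3 := mul8 h2
    rcases hL with hL | hL <;> rcases hA with hA | hA <;> rw [hL, hA] at h3 <;> omega

theorem descend {A : ℕ} (hA : A % 8 = 3 ∨ A % 8 = 7) (N a : ℕ) : ∀ l L G : ℕ,
    L + 3 * l ^ 2 = 4 ^ a * N → G * G = L * A →
    ∃ l' L' G' : ℕ, G = 2 ^ a * G' ∧ L' + 3 * l' ^ 2 = N ∧ G' * G' = L' * A := by
  induction a with
  | zero => intro l L G h1 h2; exact ⟨l, L, G, by simp, by simpa using h1, h2⟩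
  | succ a ih =>
    intro l L G h1 h2
    rw [show 4 ^ (a + 1) * N = 4 * (4 ^ a * N) by ring] at h1
    obtain ⟨l1, L1, G1, -, -, rfl, h3, h4⟩ := step hA h1 h2
    obtain ⟨l', L', G', rfl, h5, h6⟩ := ih l1 L1 G1 h3 h4
    exact ⟨l', L', G', by rw [pow_succ]; ring, h5, h6⟩

theorem root_four {a : ℕ} : ∀ {G t : ℕ}, G * G = 4 ^ a * t → ∃ G', G = 2 ^ a * G' ∧ G' * G' = t := by
  induction a with
  | zero => intro G t h; exact ⟨G, by simp, by simpa using h⟩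
  | succ a ih =>
    intro G t h
    rw [show 4 ^ (a + 1) * t = 4 * (4 ^ a * t) by ring] at h
    obtain ⟨G1, rfl, h1⟩ := even_of_sq h
    obtain ⟨G', rfl, h2⟩ := ih h1
    exact ⟨G', by rw [pow_succ]; ring, h2⟩

theorem key16 : ∀ g < 16, ∀ a < 16, g * g % 16 = a * a % 16 → a % 2 = 1 →
    (g % 8 = a % 8 ∨ (g + a) % 8 = 0) := by decide

/-- classes modulo 8 when `N = 7 mod 8` and `n` is even -/
theorem cls7 {N n l A L G : ℕ} (hN : N % 8 = 7) (hn : n % 2 = 0) (hA : A + 3 * n ^ 2 = N)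
    (hL : L + 3 * l ^ 2 = N) (h : G * G = L * A) : C8 A G := by
  have hA16 : A % 8 = 3 ∨ A % 8 = 7 := by
    obtain ⟨t, ht | ht⟩ := sqeven n hn <;> rw [ht] at hA <;> omega
  unfold C8
  rcases Nat.mod_two_eq_zero_or_one l with hl | hl
  · left
    have hLA16 : L % 16 = A % 16 := by
      have hL8 : L % 8 = 3 ∨ L % 8 = 7 := by
        obtain ⟨t, ht | ht⟩ := sqeven l hl <;> rw [ht] at hL <;> omega
      have hLA : L % 8 = A % 8 := by
        have h3 := mul8 h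
        rcases hL8 with h1 | h1 <;> rcases hA16 with h2 | h2
        · rw [h1, h2]
        · rw [h1, h2] at h3; omega
        · rw [h1, h2] at h3; omega
        · rw [h1, h2]
      obtain ⟨t, ht | ht⟩ := sqeven l hl <;> obtain ⟨s, hs | hs⟩ := sqeven n hn <;>
        rw [ht] at hL <;> rw [hs] at hA <;> omega
    have h16 : (G * G) % 16 = (A % 16 * (A % 16)) % 16 := by
      rw [h, Nat.mul_mod, hLA16]
    have h16' : (G % 16 * (G % 16)) % 16 = (A % 16 * (A % 16)) % 16 := by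
      rw [← h16]; exact (Nat.mul_mod _ _ _).symm
    have := key16 (G % 16) (Nat.mod_lt _ (by norm_num)) (A % 16) (Nat.mod_lt _ (by norm_num)) h16'
      (by omega)
    clear h16 h16' hLA16 hL hA hN
    omega
  · right
    obtain ⟨t, ht⟩ := sqodd l hl
    rw [ht] at hL
    obtain ⟨L', rfl⟩ : ∃ L', L = 4 * L' := ⟨L / 4, by omega⟩
    have hL'odd : L' % 2 = 1 := by omega
    rw [show 4 * L' * A = 4 * (L' * A) by ring] at h
    obtain ⟨G', rfl, h4⟩ := even_of_sq h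
    have hAo : A % 2 = 1 := by omega
    have hG'o : G' % 2 = 1 := by
      have : (G' * G') % 2 = 1 := by
        rw [h4, Nat.mul_mod, hL'odd, hAo]
      rcases Nat.mod_two_eq_zero_or_one G' with h1 | h1
      · exfalso; rw [Nat.mul_mod, h1] at this; omega
      · exact h1
    clear h4 h hL hA hA16 hN
    omega

/-- Theorem 2: `N = 7 mod 8`, and the multiples by powers of `2` of `(n, m)`. -/
theorem kill_seven {N n m : ℕ} {X : Finset ℕ} (a : ℕ) (hmn : m < n) (hN : N + m ^ 2 = 4 * n ^ 2)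
    (h7 : N % 8 = 7) (hnX : 2 ^ a * n ∈ X) (hX : ∀ j ∈ X, j ≤ 2 ^ a * n) :
    Kill (4 ^ a * N) (2 ^ a * n) X := by
  have hm2 : m ^ 2 < n ^ 2 := Nat.pow_lt_pow_left hmn (by norm_num)
  have hn : 3 * n ^ 2 < N := by omega
  have h2a : (2 ^ a) ^ 2 = 4 ^ a := by rw [← pow_mul, mul_comm, pow_mul]; norm_num
  have h4a : 2 ^ a * 2 ^ a = 4 ^ a := by rw [← pow_two]; exact h2a
  have h4p : 0 < 4 ^ a := by positivity
  have hn' : 3 * (2 ^ a * n) ^ 2 < 4 ^ a * N := by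
    rw [mul_pow, h2a, show 3 * (4 ^ a * n ^ 2) = 4 ^ a * (3 * n ^ 2) by ring]
    exact Nat.mul_lt_mul_of_pos_left hn h4p
  have hne : n % 2 = 0 := by
    rcases Nat.mod_two_eq_zero_or_one n with h | h
    · exact h
    · exfalso
      obtain ⟨t, ht⟩ := sqodd n h
      rw [ht] at hN
      rcases Nat.mod_two_eq_zero_or_one m with h' | h'
      · obtain ⟨s, hs | hs⟩ := sqeven m h' <;> rw [hs] at hN <;> omega
      · obtain ⟨s, hs⟩ := sqodd m h'
        rw [hs] at hN; omega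
  have haa := aa_add hn
  have hA8 : aa N n % 8 = 3 ∨ aa N n % 8 = 7 := by
    obtain ⟨t, ht | ht⟩ := sqeven n hne <;> rw [ht] at haa <;> omega
  have hAA : aa (4 ^ a * N) (2 ^ a * n) = 4 ^ a * aa N n := by
    have h1 := aa_add hn'
    rw [mul_pow, h2a] at h1
    have h2 : 4 ^ a * (aa N n + 3 * n ^ 2) = 4 ^ a * aa N n + 3 * (4 ^ a * n ^ 2) := by ring
    rw [haa] at h2
    omega
  have hdesc : ∀ G, Fr (4 ^ a * N) (2 ^ a * n) G → ∃ G', G = 4 ^ a * G' ∧ Fr N n G' := by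
    rintro G ⟨l, L, h1, h2⟩
    rw [hAA, show L * (4 ^ a * aa N n) = 4 ^ a * (L * aa N n) by ring] at h2
    obtain ⟨G1, rfl, h3⟩ := root_four h2
    obtain ⟨l', L', G', rfl, h4, h5⟩ := descend hA8 N a l L G1 h1 h3
    exact ⟨G', by rw [← mul_assoc, h4a], l', L', h4, h5⟩
  have hcls : ∀ G, Fr N n G → C8 (aa N n) G := by
    rintro G ⟨l, L, h1, h2⟩
    exact cls7 h7 hne haa h1 h2
  have hVF : ∀ v ∈ Vs (4 ^ a * N) (2 ^ a * n) X, Fr (4 ^ a * N) (2 ^ a * n) v ∧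
      4 ^ a * aa N n ≤ v := by
    rintro v ⟨j, hj, hs, rfl⟩
    refine ⟨⟨j, aa (4 ^ a * N) j, ?_, gg_sq hs⟩, ?_⟩
    · apply aa_add
      have : j ^ 2 ≤ (2 ^ a * n) ^ 2 := Nat.pow_le_pow_left (hX j hj) 2
      omega
    · rw [← hAA]; exact gg_ge (hX j hj) hs
  apply kill_of_ak hn' hX
  rw [hAA]
  apply AK.scale h4p
  · intro v hv
    obtain ⟨G', h1, -⟩ := hdesc v (hVF v hv).1
    exact ⟨G', h1⟩
  · apply ak8 hA8
    · intro G hG
      obtain ⟨G', h1, h2⟩ := hdesc _ hG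
      have := Nat.eq_of_mul_eq_mul_left h4p h1
      rw [this]; exact hcls _ h2
    · intro v hv
      obtain ⟨h0, h3⟩ := hVF _ hv
      obtain ⟨G', h1, h2⟩ := hdesc _ h0
      have := Nat.eq_of_mul_eq_mul_left h4p h1
      refine ⟨by rw [this]; exact hcls _ h2, Nat.le_of_mul_le_mul_left h3 h4p⟩
    · refine ⟨2 ^ a * n, hnX, sq_self _ _, ?_⟩
      rw [gg_self, hAA]

/-- `N1 + m^2 = n^2`, `N1 = 7 mod 8`: `n` is even -/
theorem even_of_seven {N n m : ℕ} (hN : N + m ^ 2 = n ^ 2) (h7 : N % 8 = 7) : n % 2 = 0 := by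
  rcases Nat.mod_two_eq_zero_or_one n with h | h
  · exact h
  · exfalso
    obtain ⟨t, ht⟩ := sqodd n h
    rw [ht] at hN
    rcases Nat.mod_two_eq_zero_or_one m with h' | h'
    · obtain ⟨s, hs | hs⟩ := sqeven m h' <;> rw [hs] at hN <;> omega
    · obtain ⟨s, hs⟩ := sqodd m h'
      rw [hs] at hN; omega

theorem even_of_even {N n m : ℕ} (hN : 4 * N + m ^ 2 = 4 * n ^ 2) :
    ∃ m', m = 2 * m' ∧ N + m' ^ 2 = n ^ 2 := by
  rcases Nat.mod_two_eq_zero_or_one m with h | h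
  · obtain ⟨m', rfl⟩ : ∃ m', m = 2 * m' := ⟨m / 2, by omega⟩
    refine ⟨m', rfl, ?_⟩
    have : (2 * m') ^ 2 = 4 * m' ^ 2 := by ring
    omega
  · exfalso
    obtain ⟨t, ht⟩ := sqodd m h
    rw [ht] at hN; omega

/-- Theorem 2 in terms of `N` only: `N = 4^a (8 b + 7)` with `a ≤ 2`. For `a ≥ 3` the statement is
false (`N = 16320`, `n = 71`, `m = 62`). -/
theorem kill_seven' {N n m : ℕ} {X : Finset ℕ} (hmn : m < n) (hN : N + m ^ 2 = 4 * n ^ 2)
    (h : N % 8 = 7 ∨ N % 32 = 28 ∨ N % 128 = 112) (hnX : n ∈ X) (hX : ∀ j ∈ X, j ≤ n) :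
    Kill N n X := by
  rcases h with h | h | h
  · have := kill_seven (X := X) 0 hmn hN h (by simpa using hnX) (by simpa using hX)
    simpa using this
  · obtain ⟨N1, rfl⟩ : ∃ N1, N = 4 * N1 := ⟨N / 4, by omega⟩
    obtain ⟨m1, rfl, h1⟩ := even_of_even hN
    have h2 := even_of_seven h1 (by omega)
    obtain ⟨n1, rfl⟩ : ∃ n1, n = 2 * n1 := ⟨n / 2, by omega⟩
    have h3 : N1 + m1 ^ 2 = 4 * n1 ^ 2 := by rw [h1]; ring
    have := kill_seven (X := X) 1 (by omega) h3 (by omega) (by simpa using hnX) (by simpa using hX)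
    simpa using this
  · obtain ⟨N1, rfl⟩ : ∃ N1, N = 4 * N1 := ⟨N / 4, by omega⟩
    obtain ⟨N2, rfl⟩ : ∃ N2, N1 = 4 * N2 := ⟨N1 / 4, by omega⟩
    obtain ⟨m1, rfl, h1⟩ := even_of_even hN
    have h2 : n % 2 = 0 := by
      rcases Nat.mod_two_eq_zero_or_one n with h2 | h2
      · exact h2
      · exfalso
        obtain ⟨t, ht⟩ := sqodd n h2
        rw [ht] at h1
        rcases Nat.mod_two_eq_zero_or_one m1 with h' | h'
        · obtain ⟨s, hs | hs⟩ := sqeven m1 h' <;> rw [hs] at h1 <;> omega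
        · obtain ⟨s, hs⟩ := sqodd m1 h'
          rw [hs] at h1; omega
    obtain ⟨n1, rfl⟩ : ∃ n1, n = 2 * n1 := ⟨n / 2, by omega⟩
    obtain ⟨m2, rfl, h3⟩ := even_of_even (by rw [h1]; ring : 4 * N2 + m1 ^ 2 = 4 * n1 ^ 2)
    have h4 := even_of_seven h3 (by omega)
    obtain ⟨n2, rfl⟩ : ∃ n2, n1 = 2 * n2 := ⟨n1 / 2, by omega⟩
    have h5 : N2 + m2 ^ 2 = 4 * n2 ^ 2 := by rw [h3]; ring
    have e1 : 2 ^ 2 * n2 = 2 * (2 * n2) := by ring
    have e2 : 4 ^ 2 * N2 = 4 * (4 * N2) := by ring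
    have := kill_seven (X := X) 2 (by omega) h5 (by omega) (by rw [e1]; exact hnX)
      (by rw [e1]; exact hX)
    rw [e1, e2] at this
    exact this

end Pool.Agent.Helper35.Phi4
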